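import Pool.Agent.H11.CV.Targets

/-!
# B2: moments of the pruned functions from the level set estimates of the blocks (helper4)
-/

set_option autoImplicit false

open Finset Polynomial

namespace Pool.Agent.H11.CV

theorem cnt_eq_sum {G : Type} [AddCommGroup G] [Fintype G] (S : Set G) (P : G → Prop)
    [DecidablePred P] (h : ∀ g, g ∈ S ↔ P g) :
    cnt S = ∑ g, (if P g then (1 : ℝ) else 0) := by
  unfold cnt
  rw [Finset.card_filter, Nat.cast_sum]
  refine sum_congr rfl fun g _ => ?_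
  by_cases hg : P g
  · rw [if_pos ((h g).mpr hg), if_pos hg, Nat.cast_one]
  · rw [if_neg (fun h' => hg ((h g).mp h')), if_neg hg, Nat.cast_zero]

theorem one_le_KK (d : ℕ) (hd : 1 ≤ d) : 1 ≤ KK d := by
  unfold KK
  have : 2 ≤ d * (d + 1) := by nlinarith
  omega

theorem b2 (hUN : T_UN) (hLM : T_LM) (hFB : T_FB) (hRS : T_RS) : T_B2 := by
  intro p d q hp hd hq
  obtain ⟨C1, hC1, hlm⟩ := hLM p d q hp hd hq
  have hK1 : 1 ≤ KK d := one_le_KK d hd
  refine ⟨C1 + 1, by linarith, ?_⟩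
  intro n j D lam G _ _ τ f hD hlam hj hLev hFam hBd
  have hp1 : (1 : ℝ) ≤ p := by exact_mod_cast hp.le
  have hp0 : (0 : ℝ) < p := by linarith
  have hlam0 : 0 < lam := by linarith
  have hEn : ∀ (m : ℕ) (h : ℕ → G → ℂ), 0 ≤ En p m h := fun m h =>
    sum_nonneg fun _ _ => sum_nonneg fun _ _ => by positivity
  -- first part
  have hfirst : ∑ ξ ∈ range (p ^ (n - j)), ∑ g,
      (if ‖blk p n f j ξ g‖ ≤ lam then ‖blk p n f j ξ g‖ ^ (2 * q) else 0) ≤
      C1 * ((j : ℝ) + 1) * D * (p : ℝ) ^ (j * (KK d - 1)) * lam ^ (2 * q - 2 * KK d) *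
        En p n f := by
    rw [← (hFB p d n j G τ f hp hj).2.2, mul_sum]
    refine sum_le_sum fun ξ hξ => ?_
    have hξ' := mem_range.mp hξ
    exact hlm j D lam G (τ.comp (lft p d (n - j) (ξ : ℤ))) (fun z => f (ξ + p ^ (n - j) * z))
      hD (hLev j le_rfl) hlam ((hFB p d n j G τ f hp hj).1 hFam ξ hξ')
      ((hFB p d n j G τ f hp hj).2.1 hBd ξ hξ')
  -- second part
  have hind : ∀ i ∈ Icc 1 j, lam ^ (2 * q) * ∑ ξ ∈ range (p ^ (n - j)),
      ∑ z ∈ range (p ^ (j - i)), ∑ g,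
        (if lam ≤ ‖blk p n f i (ξ + p ^ (n - j) * z) g‖ then (1 : ℝ) else 0) ≤
      D * (p : ℝ) ^ (j * (KK d - 1)) * lam ^ (2 * q - 2 * KK d) * En p n f := by
    intro i hi
    rw [mem_Icc] at hi
    obtain ⟨hi1, hij⟩ := hi
    have hin : i ≤ n := hij.trans hj
    have h1 := (hRS p (n - j) (j - i) hp).1 ℝ
      (fun x => ∑ g, (if lam ≤ ‖blk p n f i x g‖ then (1 : ℝ) else 0))
    have h2 : n - j + (j - i) = n - i := by omega
    rw [h2] at h1
    rw [← h1, mul_sum]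
    have h3 : ∀ x ∈ range (p ^ (n - i)),
        lam ^ (2 * q) * ∑ g, (if lam ≤ ‖blk p n f i x g‖ then (1 : ℝ) else 0) ≤
        D * (p : ℝ) ^ (j * (KK d - 1)) * lam ^ (2 * q - 2 * KK d) *
          En p i (fun z => f (x + p ^ (n - i) * z)) := by
      intro x hx
      have hx' := mem_range.mp hx
      have h4 : cnt {g : G | lam ≤ ‖blk p n f i x g‖} * lam ^ (2 * KK d) ≤
          D * (p : ℝ) ^ (i * (KK d - 1)) * En p i (fun z => f (x + p ^ (n - i) * z)) :=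
        hLev i hij G (τ.comp (lft p d (n - i) (x : ℤ)))
        (fun z => f (x + p ^ (n - i) * z)) ((hFB p d n i G τ f hp hin).1 hFam x hx')
        ((hFB p d n i G τ f hp hin).2.1 hBd x hx') lam hlam0
      rw [cnt_eq_sum {g : G | lam ≤ ‖blk p n f i x g‖} (fun g => lam ≤ ‖blk p n f i x g‖)
        (fun g => Iff.rfl)] at h4
      have h5 : lam ^ (2 * q) = lam ^ (2 * KK d) * lam ^ (2 * q - 2 * KK d) := by
        rw [← pow_add]; congr 1; omega
      have h6 : (p : ℝ) ^ (i * (KK d - 1)) ≤ (p : ℝ) ^ (j * (KK d - 1)) :=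
        pow_le_pow_right₀ hp1 (Nat.mul_le_mul_right _ hij)
      have h7 : D * (p : ℝ) ^ (i * (KK d - 1)) * En p i (fun z => f (x + p ^ (n - i) * z)) ≤
          D * (p : ℝ) ^ (j * (KK d - 1)) * En p i (fun z => f (x + p ^ (n - i) * z)) :=
        mul_le_mul_of_nonneg_right (mul_le_mul_of_nonneg_left h6 (by linarith)) (hEn _ _)
      have h8 : 0 ≤ lam ^ (2 * q - 2 * KK d) := by positivity
      calc lam ^ (2 * q) * ∑ g, (if lam ≤ ‖blk p n f i x g‖ then (1 : ℝ) else 0)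
          = (∑ g, (if lam ≤ ‖blk p n f i x g‖ then (1 : ℝ) else 0)) * lam ^ (2 * KK d) *
            lam ^ (2 * q - 2 * KK d) := by rw [h5]; ring
        _ ≤ (D * (p : ℝ) ^ (j * (KK d - 1)) * En p i (fun z => f (x + p ^ (n - i) * z))) *
            lam ^ (2 * q - 2 * KK d) := mul_le_mul_of_nonneg_right (h4.trans h7) h8
        _ = _ := by ring
    refine (sum_le_sum h3).trans ?_
    rw [← mul_sum, (hFB p d n i G τ f hp hin).2.2]
  -- assembly
  have hpt : ∀ ξ ∈ range (p ^ (n - j)), ∑ g, ‖pt p n lam f j ξ g‖ ^ (2 * q) ≤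
      ∑ g, (if ‖blk p n f j ξ g‖ ≤ lam then ‖blk p n f j ξ g‖ ^ (2 * q) else 0) +
      ∑ i ∈ Icc 1 j, lam ^ (2 * q) * ∑ z ∈ range (p ^ (j - i)), ∑ g,
        (if lam ≤ ‖blk p n f i (ξ + p ^ (n - j) * z) g‖ then (1 : ℝ) else 0) := by
    intro ξ hξ
    have h1 : ∑ i ∈ Icc 1 j, lam ^ (2 * q) * ∑ z ∈ range (p ^ (j - i)), ∑ g,
        (if lam ≤ ‖blk p n f i (ξ + p ^ (n - j) * z) g‖ then (1 : ℝ) else 0) =
        ∑ g, lam ^ (2 * q) * ∑ i ∈ Icc 1 j, ∑ z ∈ range (p ^ (j - i)),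
          (if lam ≤ ‖blk p n f i (ξ + p ^ (n - j) * z) g‖ then (1 : ℝ) else 0) := by
      rw [← mul_sum, ← mul_sum]
      congr 1
      rw [sum_comm]
      refine sum_congr rfl fun i _ => ?_
      rw [sum_comm]
    rw [h1, ← sum_add_distrib]
    refine sum_le_sum fun g _ => ?_
    exact hUN p n q lam G f g hp hlam (hK1.trans hq) hBd j ξ hj (mem_range.mp hξ)
  refine (sum_le_sum hpt).trans ?_
  rw [sum_add_distrib]
  have hsecond : ∑ ξ ∈ range (p ^ (n - j)), ∑ i ∈ Icc 1 j, lam ^ (2 * q) *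
      ∑ z ∈ range (p ^ (j - i)), ∑ g,
        (if lam ≤ ‖blk p n f i (ξ + p ^ (n - j) * z) g‖ then (1 : ℝ) else 0) ≤
      (j : ℝ) * (D * (p : ℝ) ^ (j * (KK d - 1)) * lam ^ (2 * q - 2 * KK d) * En p n f) := by
    rw [sum_comm]
    have h1 : ∀ i ∈ Icc 1 j, ∑ ξ ∈ range (p ^ (n - j)), lam ^ (2 * q) *
        ∑ z ∈ range (p ^ (j - i)), ∑ g,
          (if lam ≤ ‖blk p n f i (ξ + p ^ (n - j) * z) g‖ then (1 : ℝ) else 0) ≤
        D * (p : ℝ) ^ (j * (KK d - 1)) * lam ^ (2 * q - 2 * KK d) * En p n f := by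
      intro i hi
      rw [← mul_sum]
      exact hind i hi
    refine (sum_le_sum h1).trans ?_
    rw [sum_const, Nat.card_Icc, nsmul_eq_mul, Nat.add_sub_cancel]
  refine (add_le_add hfirst hsecond).trans ?_
  have hjn : (j : ℝ) ≤ n := by exact_mod_cast hj
  have hj0 : (0 : ℝ) ≤ j := Nat.cast_nonneg j
  have hT : 0 ≤ D * (p : ℝ) ^ (j * (KK d - 1)) * lam ^ (2 * q - 2 * KK d) * En p n f :=
    mul_nonneg (by positivity) (hEn _ _)
  calc C1 * ((j : ℝ) + 1) * D * (p : ℝ) ^ (j * (KK d - 1)) * lam ^ (2 * q - 2 * KK d) *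
        En p n f + (j : ℝ) * (D * (p : ℝ) ^ (j * (KK d - 1)) * lam ^ (2 * q - 2 * KK d) *
        En p n f)
      = (C1 * ((j : ℝ) + 1) + j) * (D * (p : ℝ) ^ (j * (KK d - 1)) *
        lam ^ (2 * q - 2 * KK d) * En p n f) := by ring
    _ ≤ ((C1 + 1) * ((n : ℝ) + 1)) * (D * (p : ℝ) ^ (j * (KK d - 1)) *
        lam ^ (2 * q - 2 * KK d) * En p n f) := by
        apply mul_le_mul_of_nonneg_right _ hT
        nlinarith
    _ = _ := by ring

end Pool.Agent.H11.CV
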