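import Pool.Agent.H11.CV.Targets

/-!
# JB: counting solutions (helper4)
-/

set_option autoImplicit false

open Finset Polynomial

namespace Pool.Agent.H11.CV

namespace JBa

/-- the phase of `x` -/
noncomputable def u (q k : ℕ) (x : ℕ) (g : Fin (k + 1) → ZMod q) : ℂ :=
  ee q (∑ j : Fin (k + 1), ((g j).val : ℤ) * (x : ℤ) ^ (j : ℕ))

/-- the coefficients modulo `q` -/
noncomputable def tau (q k : ℕ) : ℤ[X] →+ (Fin (k + 1) → ZMod q) where
  toFun P := fun j => ((P.coeff j : ℤ) : ZMod q)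
  map_zero' := by funext j; simp
  map_add' P Q := by funext j; simp

theorem u_add (hEX : T_EX) (q k x : ℕ) [NeZero q] (g : Fin (k + 1) → ZMod q) (P : ℤ[X])
    (hP : P.natDegree ≤ k) :
    u q k x (g + tau q k P) = ee q (P.eval (x : ℤ)) * u q k x g := by
  obtain ⟨-, e2, e3, -⟩ := hEX
  unfold u
  rw [← e2]
  apply e3 q _ _ (Nat.pos_of_ne_zero (NeZero.ne q))
  rw [← ZMod.intCast_zmod_eq_zero_iff_dvd]
  rw [Polynomial.eval_eq_sum_range' (Nat.lt_succ_of_le hP), ← Fin.sum_univ_eq_sum_range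
    (fun i => P.coeff i * (x : ℤ) ^ i) (k + 1)]
  push_cast
  simp only [Pi.add_apply, ZMod.natCast_val, ZMod.cast_id', id_eq, add_mul, sum_add_distrib, tau,
    AddMonoidHom.coe_mk, ZeroHom.coe_mk]
  ring

theorem norm_u (hEX : T_EX) (q k x : ℕ) (g : Fin (k + 1) → ZMod q) : ‖u q k x g‖ = 1 :=
  hEX.1 _ _

theorem ee_zero (q : ℕ) : ee q 0 = 1 := by
  unfold ee
  simp

theorem ee_sum (hEX : T_EX) (q : ℕ) {ι : Type*} (s : Finset ι) (a : ι → ℤ) :
    ee q (∑ i ∈ s, a i) = ∏ i ∈ s, ee q (a i) := by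
  induction s using Finset.cons_induction with
  | empty => simp [ee_zero]
  | cons i s hi ih => rw [sum_cons, prod_cons, hEX.2.1, ih]

/-- sums over `ZMod q` and over `range q` -/
theorem sum_zmod (q : ℕ) [NeZero q] (F : ℕ → ℂ) :
    ∑ t : ZMod q, F t.val = ∑ t ∈ range q, F t := by
  refine Finset.sum_nbij (fun t => t.val) ?_ ?_ ?_ ?_
  · intro t _
    exact mem_range.mpr (ZMod.val_lt t)
  · intro a _ b _ h
    exact ZMod.val_injective q h
  · intro b hb
    have hb' : b < q := mem_range.mp hb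
    exact ⟨(b : ZMod q), mem_coe.mpr (mem_univ _), ZMod.val_cast_of_lt hb'⟩
  · intro a _
    rfl

/-- power sum differences -/
def dj {K : ℕ} (x y : Fin K → ℕ) (j : ℕ) : ℤ := ∑ i, (x i : ℤ) ^ j - ∑ i, (y i : ℤ) ^ j

theorem prod_u (hEX : T_EX) (q k : ℕ) {K : ℕ} (x y : Fin K → ℕ) (g : Fin (k + 1) → ZMod q) :
    (∏ i, u q k (x i) g) * (∏ i, (starRingEnd ℂ) (u q k (y i) g)) =
      ∏ j : Fin (k + 1), ee q (((g j).val : ℤ) * dj x y j) := by
  have h1 : ∏ i, u q k (x i) g =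
      ee q (∑ i, ∑ j : Fin (k + 1), ((g j).val : ℤ) * (x i : ℤ) ^ (j : ℕ)) := by
    rw [ee_sum hEX]
    rfl
  have h2 : ∏ i, (starRingEnd ℂ) (u q k (y i) g) =
      ee q (∑ i, -∑ j : Fin (k + 1), ((g j).val : ℤ) * (y i : ℤ) ^ (j : ℕ)) := by
    rw [ee_sum hEX]
    refine prod_congr rfl fun i _ => ?_
    exact hEX.2.2.2.2.1 _ _
  rw [h1, h2, ← hEX.2.1, ← ee_sum hEX]
  congr 1
  unfold dj
  simp only [sum_neg_distrib, mul_sub, mul_sum, sum_sub_distrib]
  rw [sum_comm, sum_comm (s := (univ : Finset (Fin K))) (t := (univ : Finset (Fin (k + 1))))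
    (f := fun i j => ((g j).val : ℤ) * (y i : ℤ) ^ (j : ℕ))]
  ring

/-- the sum over `g` -/
def Wn (q k : ℕ) {K : ℕ} (x y : Fin K → ℕ) : ℕ :=
  ∏ j : Fin (k + 1), (if (q : ℤ) ∣ dj x y j then q else 0)

theorem sum_prod (hEX : T_EX) (q k : ℕ) [NeZero q] {K : ℕ} (x y : Fin K → ℕ) :
    ∑ g : Fin (k + 1) → ZMod q,
      (∏ i, u q k (x i) g) * (∏ i, (starRingEnd ℂ) (u q k (y i) g)) = (Wn q k x y : ℂ) := by
  simp only [prod_u hEX]
  have h := Finset.prod_univ_sum (fun _ : Fin (k + 1) => (univ : Finset (ZMod q)))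
    (fun j t => ee q ((t.val : ℤ) * dj x y j))
  rw [Fintype.piFinset_univ] at h
  rw [← h]
  unfold Wn
  rw [Nat.cast_prod]
  refine prod_congr rfl fun j _ => ?_
  rw [sum_zmod q (fun t => ee q ((t : ℤ) * dj x y j))]
  have h7 := hEX.2.2.2.2.2.2 q (dj x y j) (Nat.pos_of_ne_zero (NeZero.ne q))
  simp only [mul_comm] at h7 ⊢
  rw [h7]
  split_ifs
  · rfl
  · simp

theorem Wn_sols (q k N : ℕ) (p : (Fin (KK k) → ℕ) × (Fin (KK k) → ℕ))
    (hp : p ∈ sols (KK k) k N) : Wn q k p.1 p.2 = q ^ (k + 1) := by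
  unfold Wn
  have h : ∀ j ∈ (univ : Finset (Fin (k + 1))),
      (if (q : ℤ) ∣ dj p.1 p.2 j then q else 0) = q := by
    intro j _
    rw [if_pos]
    have h0 : dj p.1 p.2 j = 0 := by
      unfold dj
      unfold sols at hp
      rw [mem_filter] at hp
      refine Fin.cases ?_ (fun i => ?_) j
      · simp
      · have := hp.2 i
        rw [Fin.val_succ]
        have h2 : ((∑ l, p.1 l ^ (i.val + 1) : ℕ) : ℤ) = ((∑ l, p.2 l ^ (i.val + 1) : ℕ) : ℤ) := by
          rw [this]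
        push_cast at h2
        rw [h2, sub_self]
    rw [h0]
    exact dvd_zero _
  rw [prod_congr rfl h, prod_const, card_univ, Fintype.card_fin]

/-- the moment as a sum over pairs of tuples -/
theorem moment (hEX : T_EX) (q k P K : ℕ) [NeZero q] :
    ∑ g : Fin (k + 1) → ZMod q, ‖∑ x ∈ range P, u q k x g‖ ^ (2 * K) =
      ((∑ p ∈ (Fintype.piFinset fun _ : Fin K => range P) ×ˢ
        (Fintype.piFinset fun _ : Fin K => range P), Wn q k p.1 p.2 : ℕ) : ℝ) := by
  have h1 : ∀ g : Fin (k + 1) → ZMod q, ((‖∑ x ∈ range P, u q k x g‖ ^ (2 * K) : ℝ) : ℂ) =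
      ∑ p ∈ (Fintype.piFinset fun _ : Fin K => range P) ×ˢ
        (Fintype.piFinset fun _ : Fin K => range P),
        (∏ i, u q k (p.1 i) g) * (∏ i, (starRingEnd ℂ) (u q k (p.2 i) g)) := by
    intro g
    have h2 : (∑ x ∈ range P, u q k x g) ^ K =
        ∑ x ∈ Fintype.piFinset fun _ : Fin K => range P, ∏ i, u q k (x i) g := by
      rw [← Finset.prod_univ_sum (fun _ : Fin K => range P) (fun _ x => u q k x g), prod_const,
        card_univ, Fintype.card_fin]
    have h3 : ((starRingEnd ℂ) (∑ x ∈ range P, u q k x g)) ^ K =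
        ∑ x ∈ Fintype.piFinset fun _ : Fin K => range P,
          ∏ i, (starRingEnd ℂ) (u q k (x i) g) := by
      rw [map_sum, ← Finset.prod_univ_sum (fun _ : Fin K => range P)
        (fun _ x => (starRingEnd ℂ) (u q k x g)), prod_const, card_univ, Fintype.card_fin]
    rw [sum_product]
    dsimp only
    rw [← sum_mul_sum, ← h2, ← h3, ← mul_pow, Complex.mul_conj,
      Complex.normSq_eq_norm_sq, pow_mul]
    push_cast
    ring
  have h4 : ((∑ g : Fin (k + 1) → ZMod q, ‖∑ x ∈ range P, u q k x g‖ ^ (2 * K) : ℝ) : ℂ) =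
      (((∑ p ∈ (Fintype.piFinset fun _ : Fin K => range P) ×ˢ
        (Fintype.piFinset fun _ : Fin K => range P), Wn q k p.1 p.2 : ℕ) : ℝ) : ℂ) := by
    rw [Complex.ofReal_sum, sum_congr rfl fun g _ => h1 g, sum_comm]
    push_cast
    refine sum_congr rfl fun p _ => ?_
    exact sum_prod hEX q k p.1 p.2
  exact_mod_cast h4

end JBa

open JBa

theorem jb (hEX : T_EX) : T_JB := by
  intro k p n N D hk hp hN hD hFlat
  have hK1 : 1 ≤ KK k := by
    unfold KK
    have : 2 ≤ k * (k + 1) := by nlinarith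
    omega
  have hp0 : (0 : ℝ) < p := by exact_mod_cast hp.pos
  have hq0 : p ^ (k * n) ≠ 0 := (pow_pos hp.pos _).ne'
  have : NeZero (p ^ (k * n)) := ⟨hq0⟩
  set q := p ^ (k * n) with hq
  have hfam : Fam p k n (tau q k) (u q k) := by
    intro x hx P hP _ g
    exact u_add hEX q k x g P hP
  have h1 := hFlat (Fin (k + 1) → ZMod q) (tau q k) (u q k) hfam
  rw [moment hEX] at h1
  have h2 : ∑ x ∈ range (p ^ n), ∑ g : Fin (k + 1) → ZMod q, ‖u q k x g‖ ^ (2 * KK k) =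
      (p : ℝ) ^ n * (q : ℝ) ^ (k + 1) := by
    simp only [norm_u hEX, one_pow, sum_const, card_univ, nsmul_eq_mul, mul_one, card_range,
      Fintype.card_pi, ZMod.card, prod_const, Fintype.card_fin]
    push_cast
    ring
  rw [h2] at h1
  have h3 : (sols (KK k) k N).card * q ^ (k + 1) ≤
      ∑ r ∈ (Fintype.piFinset fun _ : Fin (KK k) => range (p ^ n)) ×ˢ
        (Fintype.piFinset fun _ : Fin (KK k) => range (p ^ n)), Wn q k r.1 r.2 := by
    have hsub : sols (KK k) k N ⊆ (Fintype.piFinset fun _ : Fin (KK k) => range (p ^ n)) ×ˢ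
        (Fintype.piFinset fun _ : Fin (KK k) => range (p ^ n)) := by
      intro r hr
      unfold sols at hr
      rw [mem_filter, mem_product, Fintype.mem_piFinset, Fintype.mem_piFinset] at hr
      rw [mem_product, Fintype.mem_piFinset, Fintype.mem_piFinset]
      refine ⟨fun i => ?_, fun i => ?_⟩
      · have := mem_Icc.mp (hr.1.1 i)
        exact mem_range.mpr (by omega)
      · have := mem_Icc.mp (hr.1.2 i)
        exact mem_range.mpr (by omega)
    calc (sols (KK k) k N).card * q ^ (k + 1)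
        = ∑ r ∈ sols (KK k) k N, Wn q k r.1 r.2 := by
          rw [sum_congr rfl fun r hr => Wn_sols q k N r hr, sum_const, smul_eq_mul]
      _ ≤ _ := sum_le_sum_of_subset hsub
  have h4 : ((sols (KK k) k N).card : ℝ) * (q : ℝ) ^ (k + 1) ≤
      D * (p : ℝ) ^ (n * (KK k - 1)) * ((p : ℝ) ^ n * (q : ℝ) ^ (k + 1)) := by
    refine le_trans ?_ h1
    exact_mod_cast h3
  have hqR : (0 : ℝ) < (q : ℝ) ^ (k + 1) := by
    apply pow_pos
    exact_mod_cast Nat.pos_of_ne_zero hq0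
  have h5 : ((p : ℝ) ^ n) ^ (KK k) = (p : ℝ) ^ (n * (KK k - 1)) * (p : ℝ) ^ n := by
    rw [← pow_mul, ← pow_add]
    congr 1
    obtain ⟨m, hm⟩ : ∃ m, KK k = m + 1 := ⟨KK k - 1, by omega⟩
    rw [hm, Nat.add_sub_cancel]
    ring
  have h6 : ((sols (KK k) k N).card : ℝ) * (q : ℝ) ^ (k + 1) ≤
      (D * ((p : ℝ) ^ n) ^ (KK k)) * (q : ℝ) ^ (k + 1) := by
    refine h4.trans (le_of_eq ?_)
    rw [h5]
    ring
  exact le_of_mul_le_mul_right h6 hqR

end Pool.Agent.H11.CV
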