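import Pool.Agent.H11.CV.Targets

/-!
# OM: the first scale of growth (helper4)
-/

set_option autoImplicit false

open Finset Polynomial

namespace Pool.Agent.H11.CV

theorem om (hDF : T_DF) (hSQ : T_SQ) (hCC : T_CC) : T_OM := by
  intro p n α B lam G _ f g hp hn hB hα hbig hlam hBd hbd
  have hp2 : (2 : ℝ) ≤ p := by exact_mod_cast hp
  have hp0 : (0 : ℝ) < p := by linarith
  have hnR : (1 : ℝ) ≤ n := by exact_mod_cast hn
  set X : ℝ := (p : ℝ) ^ n with hX
  have hXpos : 0 < X := pow_pos hp0 n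
  have hsum : ‖∑ x ∈ range (p ^ n), f x g‖ ≤ X := by
    refine (norm_sum_le_of_le _ (fun x hx => hBd x (mem_range.mp hx) g)).trans ?_
    simp [hX]
  have hαX : α ≤ X := hbd.trans hsum
  have hB0 : (0 : ℝ) < B := by linarith
  have h24 : (1 : ℝ) ≤ B * n := by nlinarith
  have hlam1 : 1 ≤ lam := by
    rw [hlam, le_div_iff₀ hα, one_mul]
    calc α ≤ X := hαX
      _ = 1 * X := (one_mul X).symm
      _ ≤ B * n * X := mul_le_mul_of_nonneg_right h24 hXpos.le
  have hlam0 : 0 < lam := by linarith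
  obtain ⟨sq1, sq2, -, -, sq5⟩ := hSQ p n lam G f g hp
  obtain ⟨df1, df2⟩ := hDF p n lam G f g hp hlam1 hBd
  have hcc : ∀ i, i ≤ n → cc p n i ≤ 3 * X := fun i hi => ((hCC p n i hp hn).1 hi).2
  have h2 : α * lam = B * n * X := by rw [hlam]; field_simp
  -- sum bound
  have hS : ∀ j, j ≤ n → (∀ i, 1 ≤ i → i < j → sq p n lam f i g ≤ cc p n i) →
      (∑ i ∈ Ico 1 j, sq p n lam f i g) / lam ≤ 3 * α / B := by
    intro j hj h
    have h1 : ∑ i ∈ Ico 1 j, sq p n lam f i g ≤ n * (3 * X) := by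
      calc ∑ i ∈ Ico 1 j, sq p n lam f i g ≤ ∑ i ∈ Ico 1 j, 3 * X :=
            sum_le_sum fun i hi => by
              rw [mem_Ico] at hi
              exact (h i hi.1 hi.2).trans (hcc i (by omega))
        _ = ((j - 1 : ℕ) : ℝ) * (3 * X) := by
            rw [sum_const, Nat.card_Ico, nsmul_eq_mul]
        _ ≤ n * (3 * X) := by
            apply mul_le_mul_of_nonneg_right _ (by positivity)
            exact_mod_cast (by omega : j - 1 ≤ n)
    rw [div_le_div_iff₀ hlam0 hB0]
    calc (∑ i ∈ Ico 1 j, sq p n lam f i g) * B ≤ (n * (3 * X)) * B :=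
          mul_le_mul_of_nonneg_right h1 hB0.le
      _ = 3 * (B * n * X) := by ring
      _ = 3 * α * lam := by rw [← h2]; ring
  -- growth happens before `n`
  have hex : ∃ j, 1 ≤ j ∧ j < n ∧ cc p n j < sq p n lam f j g := by
    by_contra hc
    push Not at hc
    have h3 : sq p n lam f (n - 1) g ≤ 3 * X := by
      by_cases h1 : 1 ≤ n - 1
      · exact (hc (n - 1) h1 (by omega)).trans (hcc _ (by omega))
      · have : n - 1 = 0 := by omega
        rw [this]
        have := sq2 hBd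
        linarith
    have h4 : sq p n lam f n g ≤ p * (3 * X) := by
      have := sq1 (n - 1) (by omega)
      rw [Nat.sub_add_cancel hn] at this
      exact this.trans (mul_le_mul_of_nonneg_left h3 hp0.le)
    have h5 : sq p n lam f n g = ‖pr p n lam f n 0 g‖ ^ 2 := by
      unfold sq
      rw [Nat.sub_self, pow_zero, sum_range_one]
    have h6 := (df1 n le_rfl).trans (hS n le_rfl hc)
    rw [Nat.sub_self, pow_zero, sum_range_one] at h6
    have h7 : 3 * α / B ≤ α / 8 := by
      rw [div_le_div_iff₀ hB0 (by norm_num)]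
      nlinarith
    have h8 : ‖∑ x ∈ range (p ^ n), f x g‖ ≤
        ‖∑ x ∈ range (p ^ n), f x g - pr p n lam f n 0 g‖ + ‖pr p n lam f n 0 g‖ := by
      have := norm_add_le (∑ x ∈ range (p ^ n), f x g - pr p n lam f n 0 g) (pr p n lam f n 0 g)
      rwa [sub_add_cancel] at this
    have h9 : 7 / 8 * α ≤ ‖pr p n lam f n 0 g‖ := by linarith
    have h10 : (7 / 8 * α) ^ 2 ≤ ‖pr p n lam f n 0 g‖ ^ 2 :=
      pow_le_pow_left₀ (by positivity) h9 2
    rw [← h5] at h10
    have hα2 : 0 < α ^ 2 := by positivity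
    nlinarith
  classical
  obtain ⟨hj1, hjn, hjc⟩ := Nat.find_spec hex
  have hmin : ∀ i, 1 ≤ i → i < Nat.find hex → sq p n lam f i g ≤ cc p n i := by
    intro i hi hi2
    have := Nat.find_min hex hi2
    push Not at this
    exact this hi (by omega)
  refine ⟨Nat.find hex, hj1, hjn, ⟨hjc, hmin⟩, ?_, ?_⟩
  · exact (df1 _ hjn.le).trans (hS _ hjn.le hmin)
  · intro c
    exact (df2 _ c hjn).trans (hS _ hjn.le hmin)

end Pool.Agent.H11.CV
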